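import Pool.Agent.helper55.VN.SpecD
import Pool.Agent.helper65.VQ.EDD

/-!
# Project VN (MP_07c750_an), row QDD: the coefficients of the evolved packets as functions of the time (copy of EDD)
-/

set_option autoImplicit false

open scoped MatrixGroups ContDiff Topology UpperHalfPlane ComplexConjugate ENNReal
open UpperHalfPlane MeasureTheory Filter Set

namespace Pool.Agent.VN

open Pool.Agent.RS Pool.Agent.VQ
open Pool.Agent.RPQ (CEig mean VV IsOp)

noncomputable section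

theorem QDD_dist (hVCD : VCD_stmt) {k C : ℝ} {Γ : Subgroup SL(2, ℝ)} {D : Dyn}
    (hC : ∀ E s t : ℝ, |E| ≤ k → ∀ g : SL(2, ℝ), D.fl E (s + t) g = D.fl E s (D.fl E t g) ∧
      (∀ γ : Γ, D.fl E t ((γ : SL(2, ℝ)) * g) = (γ : SL(2, ℝ)) * D.fl E t g) ∧ D.fl E t (-g) = -D.fl E t g ∧
      dist (D.fl E t g • I : ℍ) (g • I) ≤ C * |t|)
    {p : SL(2, ℝ) × ℝ} (hp : |p.2| ≤ k) {t : ℝ} {z : ℍ}
    (h : ‖cd ((D.fl p.2 t p.1)⁻¹ • z)‖ ≤ 1) : dist z (p.1 • I : ℍ) ≤ 2 + C * |t| := by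
  obtain ⟨-, -, -, -, -, -, hd, -⟩ := hVCD
  have h1 := hd _ h
  have h2 : dist z (D.fl p.2 t p.1 • I : ℍ) = dist ((D.fl p.2 t p.1)⁻¹ • z : ℍ) I := by
    have h3 := dist_smul (D.fl p.2 t p.1) ((D.fl p.2 t p.1)⁻¹ • z) I
    rw [smul_inv_smul] at h3
    exact h3
  obtain ⟨-, -, -, h4⟩ := hC p.2 0 t hp p.1
  have h5 := dist_triangle z (D.fl p.2 t p.1 • I : ℍ) (p.1 • I : ℍ)
  linarith


theorem QDD_flc {Γ : Subgroup SL(2, ℝ)} {k : ℝ} {B : ℕ → ℝ} {D : Dyn} (hVCD : VCD_stmt) (hD : OKN Γ k B D) :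
    ContinuousOn (fun x : ((SL(2, ℝ) × ℝ) × ℝ) × ℍ => cd ((D.fl x.1.1.2 x.1.2 x.1.1.1)⁻¹ • x.2))
      {x | |x.1.1.2| ≤ k} := by
  obtain ⟨-, -, -, -, -, -, -, hcd, -⟩ := hVCD
  have h1 : ContinuousOn (fun x : ((SL(2, ℝ) × ℝ) × ℝ) × ℍ => D.fl x.1.1.2 x.1.2 x.1.1.1)
      {x | |x.1.1.2| ≤ k} := by
    have h2 : Continuous fun x : ((SL(2, ℝ) × ℝ) × ℝ) × ℍ => ((x.1.1.2, x.1.2, x.1.1.1) : ℝ × ℝ × SL(2, ℝ)) := by
      fun_prop
    exact hD.cfl.comp h2.continuousOn fun x hx => hx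
  have h3 : ContinuousOn (fun x : ((SL(2, ℝ) × ℝ) × ℝ) × ℍ => (D.fl x.1.1.2 x.1.2 x.1.1.1)⁻¹ • x.2)
      {x | |x.1.1.2| ≤ k} := h1.inv.smul continuous_snd.continuousOn
  exact hcd.comp_continuousOn h3


theorem QDD_pFc {Γ : Subgroup SL(2, ℝ)} {k : ℝ} {B : ℕ → ℝ} {D : Dyn} (hVCD : VCD_stmt) (hD : OKN Γ k B D)
    (f : ℝ → SL(2, ℝ) × ℝ → ℂ → ℂ)
    (hf : ContinuousOn (fun x : ((SL(2, ℝ) × ℝ) × ℝ) × ℂ => f x.1.2 x.1.1 x.2) {x | |x.1.1.2| ≤ k}) :
    ContinuousOn (fun x : ((SL(2, ℝ) × ℝ) × ℝ) × ℍ => pF D x.1.2 (f x.1.2) x.1.1 x.2) {x | |x.1.1.2| ≤ k} := by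
  have h1 : ContinuousOn (fun x : ((SL(2, ℝ) × ℝ) × ℝ) × ℍ =>
      ((x.1, cd ((D.fl x.1.1.2 x.1.2 x.1.1.1)⁻¹ • x.2)) : ((SL(2, ℝ) × ℝ) × ℝ) × ℂ)) {x | |x.1.1.2| ≤ k} :=
    continuous_fst.continuousOn.prodMk (QDD_flc hVCD hD)
  exact hf.comp h1 fun x hx => hx


theorem QDD_R0 (k : ℝ) (hk : 0 < k) : ∃ R0 : ℝ, 2 ≤ R0 ∧ ∀ R : ℝ, R0 ≤ R → 2 * R ^ (-(1 / 4) : ℝ) ≤ k := by
  have h1 := (tendsto_rpow_neg_atTop (y := 1 / 4) (by norm_num)).eventually_lt_const (u := k / 2) (by linarith)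
  obtain ⟨R0, hR0⟩ := eventually_atTop.1 h1
  refine ⟨max 2 R0, le_max_left _ _, fun R hR => ?_⟩
  have := hR0 R ((le_max_right _ _).trans hR)
  linarith

theorem QDD_win {R k : ℝ} (hR : 2 * R ^ (-(1 / 4) : ℝ) ≤ k) {p : SL(2, ℝ) × ℝ} (hp : p ∈ GW 2 R) : |p.2| ≤ k := by
  have h : p.2 ∈ Icc (-(2 * R ^ (-(1 / 4) : ℝ))) (2 * R ^ (-(1 / 4) : ℝ)) := hp.2
  rw [abs_le]
  exact ⟨by linarith [h.1], by linarith [h.2]⟩


theorem QDD_abs (C : ℝ) (hC0 : 0 ≤ C) (φ : ℍ → ℂ) (Ψ G : ℝ → ℍ → ℂ) (hφ : Continuous φ) (hΨ : Continuous fun y : ℝ × ℍ => Ψ y.1 y.2)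
    (hG : Continuous fun y : ℝ × ℍ => G y.1 y.2) (hd : ∀ s z, HasDerivAt (fun r => Ψ r z) (G s z) s) (z0 : ℍ)
    (hs : ∀ s z, Ψ s z ≠ 0 → dist z z0 ≤ 2 + C * |s|) (t : ℝ) :
    HasDerivAt (fun s => ∫ z : ℍ, φ z * conj (Ψ s z)) (∫ z : ℍ, φ z * conj (G t z)) t := by
  have hd' : ∀ s z, HasDerivAt (fun r => φ z * conj (Ψ r z)) (φ z * conj (G s z)) s := by
    intro s z
    have h1 := hd s z
    have h2 : HasDerivAt (fun r => conj (Ψ r z)) (conj (G s z)) s := by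
      have h3 := (Complex.conjCLE.toContinuousLinearMap.hasFDerivAt (x := Ψ s z)).comp_hasDerivAt s h1
      exact h3
    exact h2.const_mul (φ z)
  have hF'c : Continuous fun y : ℝ × ℍ => φ y.2 * conj (G y.1 y.2) :=
    (hφ.comp continuous_snd).mul (Complex.continuous_conj.comp hG)
  have hFc : Continuous fun y : ℝ × ℍ => φ y.2 * conj (Ψ y.1 y.2) :=
    (hφ.comp continuous_snd).mul (Complex.continuous_conj.comp hΨ)
  have hF1 : ∀ s, Continuous fun z : ℍ => φ z * conj (Ψ s z) := fun s =>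
    hFc.comp (continuous_const.prodMk continuous_id)
  have hF2 : ∀ s, Continuous fun z : ℍ => φ z * conj (G s z) := fun s =>
    hF'c.comp (continuous_const.prodMk continuous_id)
  set K : Set ℍ := Metric.closedBall z0 (2 + C * (|t| + 1)) with hK
  have hKc : IsCompact K := isCompact_closedBall _ _
  have hsab : ∀ s ∈ Metric.ball t 1, |s| ≤ |t| + 1 := by
    intro s hs
    rw [Metric.mem_ball, Real.dist_eq] at hs
    have := abs_sub_abs_le_abs_sub s t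
    linarith
  obtain ⟨M, hM⟩ := (isCompact_Icc (a := t - 1) (b := t + 1)).prod hKc |>.exists_bound_of_continuousOn hF'c.continuousOn
  have hmain := hasDerivAt_integral_of_dominated_loc_of_deriv_le (μ := (volume : Measure ℍ))
    (F := fun s z => φ z * conj (Ψ s z)) (F' := fun s z => φ z * conj (G s z)) (x₀ := t) (s := Metric.ball t 1)
    (bound := K.indicator fun _ => M) (Metric.ball_mem_nhds t one_pos)
    (Eventually.of_forall fun s => (hF1 s).aestronglyMeasurable)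
    (by
      refine (hF1 t).integrable_of_hasCompactSupport (HasCompactSupport.intro hKc fun z hz => ?_)
      by_contra hne
      apply hz
      have hne' : Ψ t z ≠ 0 := by
        intro h0
        apply hne
        rw [h0]
        simp
      have := hs t z hne'
      rw [hK, Metric.mem_closedBall]
      linarith)
    (hF2 t).aestronglyMeasurable
    (by
      refine Eventually.of_forall fun z s hs' => ?_
      by_cases hz : z ∈ K
      · rw [indicator_of_mem hz]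
        have hs'' := hs'
        rw [Metric.mem_ball, Real.dist_eq, abs_lt] at hs''
        exact hM (s, z) ⟨⟨by linarith [hs''.1], by linarith [hs''.2]⟩, hz⟩
      · rw [indicator_of_notMem hz]
        have h0 : (fun r => φ z * conj (Ψ r z)) =ᶠ[𝓝 s] fun _ => 0 := by
          filter_upwards [Metric.isOpen_ball.mem_nhds hs'] with r hr
          have h1 : Ψ r z = 0 := by
            by_contra hne
            apply hz
            have h2 := hs r z hne
            have h3 := mul_le_mul_of_nonneg_left (hsab r hr) hC0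
            rw [hK, Metric.mem_closedBall]
            linarith
          rw [h1]
          simp
        have h1 : φ z * conj (G s z) = 0 := by
          have h2 := (hd' s z).congr_of_eventuallyEq h0.symm
          exact h2.unique (hasDerivAt_const s (0 : ℂ))
        rw [h1, norm_zero])
    (by
      rw [integrable_indicator_iff hKc.measurableSet]
      exact integrableOn_const (hKc.measure_lt_top.ne))
    (Eventually.of_forall fun z s _ => hd' s z)
  exact hmain.2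


theorem QDD_abs2 (C : ℝ) (hC0 : 0 ≤ C) (U : ℍ → ℝ) (R : ℝ) (φ : ℍ → ℂ) (Ψ E : ℝ → ℍ → ℂ) (hU : Continuous U) (hφ : Continuous φ)
    (hφ2 : QU.CD 2 φ) (hΨ : Continuous fun y : ℝ × ℍ => Ψ y.1 y.2)
    (hL : Continuous fun y : ℝ × ℍ => QU.lap (Ψ y.1) y.2) (hE : Continuous fun y : ℝ × ℍ => E y.1 y.2)
    (hd : ∀ s z, HasDerivAt (fun r => Ψ r z) (-(Complex.I * Hop U R (Ψ s) z) - Complex.I * E s z) s)
    (h2 : ∀ s, QU.CD 2 (Ψ s)) (z0 : ℍ) (hs : ∀ s z, Ψ s z ≠ 0 → dist z z0 ≤ 2 + C * |s|)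
    (hsE : ∀ s z, E s z ≠ 0 → dist z z0 ≤ 2 + C * |s|) (t : ℝ) :
    HasDerivAt (fun s => ∫ z : ℍ, φ z * conj (Ψ s z))
      (Complex.I * (∫ z : ℍ, Hop U R φ z * conj (Ψ t z)) + Complex.I * ∫ z : ℍ, φ z * conj (E t z)) t := by
  have hH : Continuous fun y : ℝ × ℍ => Hop U R (Ψ y.1) y.2 := by
    have hUc : Continuous fun y : ℝ × ℍ => ((R ^ 2 * U y.2 : ℝ) : ℂ) :=
      Complex.continuous_ofReal.comp (continuous_const.mul (hU.comp continuous_snd))
    have h1 : Continuous fun y : ℝ × ℍ => (((2 * R)⁻¹ : ℝ) : ℂ) * (QU.lap (Ψ y.1) y.2 -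
        ((R ^ 2 * U y.2 : ℝ) : ℂ) * Ψ y.1 y.2) := continuous_const.mul (hL.sub (hUc.mul hΨ))
    have h2 : (fun y : ℝ × ℍ => Hop U R (Ψ y.1) y.2) = fun y : ℝ × ℍ => (((2 * R)⁻¹ : ℝ) : ℂ) * (QU.lap (Ψ y.1) y.2 -
        ((R ^ 2 * U y.2 : ℝ) : ℂ) * Ψ y.1 y.2) := by
      funext y
      unfold Hop
      rfl
    rw [h2]
    exact h1
  have hG : Continuous fun y : ℝ × ℍ => -(Complex.I * Hop U R (Ψ y.1) y.2) - Complex.I * E y.1 y.2 :=
    (continuous_const.mul hH).neg.sub (continuous_const.mul hE)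
  have hres := QDD_abs C hC0 φ Ψ (fun s z => -(Complex.I * Hop U R (Ψ s) z) - Complex.I * E s z) hφ hΨ hG hd z0 hs t
  have hψc : Continuous (Ψ t) := hΨ.comp (continuous_const.prodMk continuous_id)
  have hEc : Continuous (E t) := hE.comp (continuous_const.prodMk continuous_id)
  have hHc : Continuous (Hop U R (Ψ t)) := by
    have hi : Continuous fun z : ℍ => ((t, z) : ℝ × ℍ) := continuous_const.prodMk continuous_id
    have h1 := hH.comp hi
    have h3 : ((fun y : ℝ × ℍ => Hop U R (Ψ y.1) y.2) ∘ fun z : ℍ => ((t, z) : ℝ × ℍ)) = Hop U R (Ψ t) := by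
      funext z
      rw [Function.comp_apply]
    rw [h3] at h1
    exact h1
  have hψs : HasCompactSupport (Ψ t) := by
    refine HasCompactSupport.intro (isCompact_closedBall z0 (2 + C * |t|)) fun z hz => ?_
    by_contra hne
    exact hz (Metric.mem_closedBall.2 (hs t z hne))
  have hEs : HasCompactSupport (E t) := by
    refine HasCompactSupport.intro (isCompact_closedBall z0 (2 + C * |t|)) fun z hz => ?_
    by_contra hne
    exact hz (Metric.mem_closedBall.2 (hsE t z hne))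
  have hψ2 := h2 t
  have hHs : HasCompactSupport (Hop U R (Ψ t)) := by
    refine HasCompactSupport.intro hψs.isCompact fun z hz => ?_
    unfold Hop
    rw [EDD_lapz _ hψ2 z hz, image_eq_zero_of_notMem_tsupport hz]
    simp
  have gen : ∀ f : ℍ → ℂ, Continuous f → HasCompactSupport f → Integrable fun z : ℍ => φ z * conj (f z) := by
    intro f hf hfs
    have hc : Continuous fun z : ℍ => conj (f z) := Complex.continuous_conj.comp hf
    have hcs : HasCompactSupport fun z : ℍ => conj (f z) := hfs.comp_left (map_zero _)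
    exact Continuous.integrable_of_hasCompactSupport (hφ.mul hc) hcs.mul_left
  have j1 := gen (Hop U R (Ψ t)) hHc hHs
  have j2 := gen (E t) hEc hEs
  have hval : (∫ z : ℍ, φ z * conj (-(Complex.I * Hop U R (Ψ t) z) - Complex.I * E t z)) =
      Complex.I * (∫ z : ℍ, Hop U R φ z * conj (Ψ t z)) + Complex.I * ∫ z : ℍ, φ z * conj (E t z) := by
    rw [← EDD_hop U R φ (Ψ t) hU hφ hψc hψs hφ2 hψ2, ← integral_const_mul, ← integral_const_mul,
      ← integral_add (j1.const_mul _) (j2.const_mul _)]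
    refine integral_congr_ae (Eventually.of_forall (fun z => ?_))
    change φ z * conj (-(Complex.I * Hop U R (Ψ t) z) - Complex.I * E t z) =
      Complex.I * (φ z * conj (Hop U R (Ψ t) z)) + Complex.I * (φ z * conj (E t z))
    rw [map_sub, map_neg, map_mul, map_mul, Complex.conj_I]
    ring
  rw [hval] at hres
  exact hres


theorem QDD_deriv (hNRM : NRM_stmt) (hNPR : NPR_stmt) (hVCD : VCD_stmt)
    {ch : ℝ → ℝ} {ζ ζ1 R k C : ℝ} {Γ : Subgroup SL(2, ℝ)} {B : ℕ → ℝ} {D : Dyn} (hch : CH ch) (hζ1 : 0 < ζ1)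
    (hζ8 : ζ1 ≤ 1 / 8) (hR : 2 ≤ R) (hD : OKN Γ k B D) (hC0 : 0 ≤ C)
    (hC : ∀ E s t : ℝ, |E| ≤ k → ∀ g : SL(2, ℝ), D.fl E (s + t) g = D.fl E s (D.fl E t g) ∧
      (∀ γ : Γ, D.fl E t ((γ : SL(2, ℝ)) * g) = (γ : SL(2, ℝ)) * D.fl E t g) ∧ D.fl E t (-g) = -D.fl E t g ∧
      dist (D.fl E t g • I : ℍ) (g • I) ≤ C * |t|) (p : SL(2, ℝ) × ℝ) (hp : |p.2| ≤ k)
    (φ : ℍ → ℂ) (hφ : Continuous φ) (hφ2 : QU.CD 2 φ) (t : ℝ) :
    HasDerivAt (fun s => ∫ z : ℍ, φ z * conj (psi D ch ζ ζ1 R s p z))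
      (Complex.I * (∫ z : ℍ, Hop D.U R φ z * conj (psi D ch ζ ζ1 R t p z)) +
        Complex.I * ∫ z : ℍ, φ z * conj (pF D t (Er D ch ζ ζ1 R t) p z)) t := by
  have hR1 : 1 ≤ R := by linarith
  have hU : Continuous D.U := hD.pot.inv.1
  obtain ⟨c1, c2, -, -, -, c6, -⟩ := hNPR ch ζ ζ1 R k Γ B D hch hζ1 hζ8 hR hD
  have hvrm := fun s => (hNRM ch ζ ζ1 R k Γ B D p s hch hζ1 hζ8 hR hD hp).2
  have emb : Continuous fun y : ℝ × ℍ => (((p, y.1), y.2) : ((SL(2, ℝ) × ℝ) × ℝ) × ℍ) := by fun_prop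
  have hm : MapsTo (fun y : ℝ × ℍ => (((p, y.1), y.2) : ((SL(2, ℝ) × ℝ) × ℝ) × ℍ)) univ {x | |x.1.1.2| ≤ k} :=
    fun y _ => hp
  have d1 : Continuous fun y : ℝ × ℍ => psi D ch ζ ζ1 R y.1 p y.2 := by
    have h := c1.comp emb.continuousOn hm
    rw [continuousOn_univ] at h
    exact h
  have d2 : Continuous fun y : ℝ × ℍ => QU.lap (psi D ch ζ ζ1 R y.1 p) y.2 := by
    have h := c2.comp emb.continuousOn hm
    rw [continuousOn_univ] at h
    exact h
  have d3 : Continuous fun y : ℝ × ℍ => pF D y.1 (Er D ch ζ ζ1 R y.1) p y.2 := by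
    have h := (QDD_pFc hVCD hD (fun s => Er D ch ζ ζ1 R s) c6).comp emb.continuousOn hm
    rw [continuousOn_univ] at h
    exact h
  have s1 : ∀ s z, psi D ch ζ ζ1 R s p z ≠ 0 → dist z (p.1 • I : ℍ) ≤ 2 + C * |s| := by
    intro s z hne
    apply QDD_dist hVCD hC hp
    by_contra h
    push Not at h
    exact hne (EDD_pv0 hch D hR1 (by linarith) s p _ h)
  have s2 : ∀ s z, pF D s (Er D ch ζ ζ1 R s) p z ≠ 0 → dist z (p.1 • I : ℍ) ≤ 2 + C * |s| := by
    intro s z hne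
    apply QDD_dist hVCD hC hp
    by_contra h
    push Not at h
    exact hne (EDD_Er0 hch D hR1 (by linarith) s p _ h)
  exact QDD_abs2 C hC0 D.U R φ (fun s => psi D ch ζ ζ1 R s p) (fun s => pF D s (Er D ch ζ ζ1 R s) p) hU hφ hφ2 d1 d2 d3
    (fun s z => (hvrm s z).2) (fun s => (hvrm s I).1) (p.1 • I) s1 s2 t


theorem QDD_proof (hNRM : NRM_stmt) (hNPR : NPR_stmt) (hVCD : VCD_stmt) (hNHA : NHA_stmt) : QDD_stmt := by
  intro k hk
  obtain ⟨C, hC1, HC⟩ := hNHA k hk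
  have hC0 : 0 ≤ C := by linarith
  refine ⟨16, by norm_num, ?_⟩
  intro ch B A hch hA
  obtain ⟨hz, hzz, hz12, -, hz2, -, -⟩ := Adm_small hA (by norm_num)
  have hζ1 : 0 < A.z1 := lt_of_lt_of_le hz hzz
  have hζ8 : A.z1 ≤ 1 / 8 := by linarith
  obtain ⟨R0, hR02, hR0⟩ := QDD_R0 k hk
  refine ⟨R0, by linarith, ?_⟩
  intro R Γ F D φ hR hΓ hD hφ hφ2 hHop
  have hC := HC Γ B D hD
  have hRw := hR0 R hR
  have hR2 : 2 ≤ R := hR02.trans hR
  have hR1 : 1 ≤ R := by linarith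
  have hsg : 0 ≤ A.sg R ∨ A.sg R < 0 := le_or_gt _ _
  obtain ⟨-, -, -, -, c5, c6, -⟩ := hNPR ch A.z A.z1 R k Γ B D hch hζ1 hζ8 hR2 hD
  have gen : ∀ (f : ℝ → SL(2, ℝ) × ℝ → ℂ → ℂ) (u : ℍ → ℂ), Continuous u →
      ContinuousOn (fun x : ((SL(2, ℝ) × ℝ) × ℝ) × ℂ => f x.1.2 x.1.1 x.2) {x | |x.1.1.2| ≤ k} →
      (∀ s p v, f s p v ≠ 0 → ‖v‖ ≤ 1) →
      ContinuousOn (fun x : (SL(2, ℝ) × ℝ) × ℝ => aF D R x.2 (f x.2) u x.1) (GW 2 R ×ˢ Icc 0 (A.sg R)) := by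
    intro f u hu hf hfs
    have h1 := QDD_pFc hVCD hD f hf
    have h2 : ContinuousOn (fun x : ((SL(2, ℝ) × ℝ) × ℝ) × ℍ => u x.2 * conj (pF D x.1.2 (f x.1.2) x.1.1 x.2))
        ((GW 2 R ×ˢ Icc 0 (A.sg R)) ×ˢ univ) := by
      apply ContinuousOn.mul (hu.comp continuous_snd).continuousOn
      apply Complex.continuous_conj.comp_continuousOn
      exact h1.mono fun x hx => QDD_win hRw hx.1.1
    have h3 := EDD_intc (GW 2 R ×ˢ Icc 0 (A.sg R)) (fun x z => u z * conj (pF D x.2 (f x.2) x.1 z))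
      (2 + C * A.sg R) h2 (by
        intro x hx z hne
        have hne' : pF D x.2 (f x.2) x.1 z ≠ 0 := by
          intro h0
          apply hne
          change u z * conj (pF D x.2 (f x.2) x.1 z) = 0
          rw [h0]
          simp
        have h4 := QDD_dist hVCD hC (QDD_win hRw hx.1) (hfs _ _ _ hne')
        have h5 : |x.2| ≤ A.sg R := by
          rw [abs_of_nonneg hx.2.1]
          exact hx.2.2
        have h6 := mul_le_mul_of_nonneg_left h5 hC0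
        linarith)
    refine h3.congr fun x hx => ?_
    change (GW 2 R).indicator (fun p => ∫ z : ℍ, u z * conj (pF D x.2 (f x.2) p z)) x.1 = _
    rw [indicator_of_mem hx.1]
  refine ⟨?_, ?_, ?_⟩
  · intro p hp t ht
    have h := QDD_deriv hNRM hNPR hVCD (ζ := A.z) hch hζ1 hζ8 hR2 hD hC0 hC p (QDD_win hRw hp) φ hφ.cont hφ2 t
    have e1 : ∀ (s : ℝ) (f : SL(2, ℝ) × ℝ → ℂ → ℂ) (u : ℍ → ℂ), aF D R s f u p = ∫ z : ℍ, u z * conj (pF D s f p z) := by
      intro s f u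
      unfold aF
      rw [indicator_of_mem hp]
    have e2 : (fun s => aF D R s (pv D ch A.z A.z1 R s) φ p) = fun s => ∫ z : ℍ, φ z * conj (psi D ch A.z A.z1 R s p z) := by
      funext s
      rw [e1]
      rfl
    rw [e2, e1, e1]
    exact h
  · intro u hu
    exact gen (fun s => pv D ch A.z A.z1 R s) u hu.cont c5 (fun s p v hne => by
      by_contra h
      push Not at h
      exact hne (EDD_pv0 hch D hR1 (by linarith) s p v h))
  · exact gen (fun s => Er D ch A.z A.z1 R s) φ hφ.cont c6 (fun s p v hne => by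
      by_contra h
      push Not at h
      exact hne (EDD_Er0 hch D hR1 (by linarith) s p v h))

end

end Pool.Agent.VN
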